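import Pool.Agent.T2H82.PW.Mul

set_option autoImplicit false

namespace Pool.Agent.T2H82.PW

open Finset Filter Topology

variable {Φ : Set (ℝ → ℂ)}

/-- The sum over the multiples of `p`. -/
theorem sum_dvd (p R : ℕ) (hp : 0 < p) (h : ℕ → ℂ) :
    ∑ n ∈ Icc 1 R, (if p ∣ n then h n else 0) = ∑ m ∈ Icc 1 (R / p), h (p * m) := by
  rw [← Finset.sum_filter]
  symm
  apply Finset.sum_bij (fun m _ => p * m)
  · intro m hm
    rw [mem_Icc] at hm
    rw [mem_filter, mem_Icc]
    refine ⟨⟨?_, ?_⟩, dvd_mul_right _ _⟩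
    · exact Nat.mul_pos hp hm.1
    · exact (Nat.mul_le_mul_left p hm.2).trans (Nat.mul_div_le R p)
  · intro a _ b _ hab
    exact Nat.eq_of_mul_eq_mul_left hp hab
  · intro n hn
    rw [mem_filter, mem_Icc] at hn
    obtain ⟨⟨h1, h2⟩, k, rfl⟩ := hn
    refine ⟨k, ?_, rfl⟩
    rw [mem_Icc]
    refine ⟨Nat.pos_of_mul_pos_left h1 |> fun h => ?_, (Nat.le_div_iff_mul_le hp).2 (by rw [mul_comm]; exact h2)⟩
    rcases Nat.eq_zero_or_pos k with rfl | h
    · omega
    · exact h
  · intro m _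
    rfl

theorem cls_zero (p n : ℕ) : cls p 0 n = if p ∣ n then 1 else 0 := by
  unfold cls
  congr 1
  rw [Nat.modEq_zero_iff_dvd]

theorem f_mul_prime {f : ℕ → ℂ} (hf : SqfMul f) {p : ℕ} (hp : p.Prime) (n : ℕ) :
    f (p * n) = (1 - cls p 0 n) * (f p * f n) := by
  rw [cls_zero]
  split_ifs with h
  · rw [sub_self, zero_mul]
    apply hf.sqf
    intro hs
    obtain ⟨k, rfl⟩ := h
    have h1 : p * p ∣ p * (p * k) := ⟨k, by ring⟩
    exact hp.one_lt.ne' (Nat.isUnit_iff.1 (hs p h1))
  · rw [sub_zero, one_mul]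
    exact hf.mul _ _ ((Nat.Prime.coprime_iff_not_dvd hp).2 h)

/-- The reduction of the class of `b` to the class of `1`, with a prime `p` such that `p b = 1`. -/
theorem step (hΦ : Closed Φ) {f : ℕ → ℂ} (hf : SqfMul f) {q p b : ℕ} (hq : 1 ≤ q) (hp : p.Prime)
    (hpb : p * b ≡ 1 [MOD q]) {R : ℕ} {B₁ B₂ : ℝ}
    (h₁ : ∀ u ∈ Φ, ‖S (fun n => cls q 1 n * f n) u (p * R)‖ ≤ B₁)
    (h₂ : ∀ u ∈ Φ, ‖S (fun n => cls q (b * b) n * f n) u (R / p)‖ ≤ B₂) :
    ∀ u ∈ Φ, ‖S (fun n => cls q b n * f n) u R‖ ≤ B₁ + 2 * B₂ := by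
  intro u hu
  have hfp : ‖f p‖ = 1 := hf.prime p hp
  have hfp0 : f p ≠ 0 := by
    intro h
    rw [h, norm_zero] at hfp
    exact zero_ne_one hfp
  have hp0 : 0 < p := hp.pos
  have hpr : (p : ℝ) ≠ 0 := by exact_mod_cast hp0.ne'
  have hcop : Nat.Coprime p q := by
    have h1 : Nat.Coprime (p * b) q := by
      have := hpb.gcd_eq
      rw [Nat.Coprime, this]
      simp
    exact Nat.Coprime.coprime_mul_right h1
  -- part A
  have hA : ∀ n : ℕ, cls p 0 (p * n) * (cls q 1 (p * n) * f (p * n)) =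
      f p * ((1 - cls p 0 n) * (cls q b n * f n)) := by
    intro n
    have e1 : cls p 0 (p * n) = 1 := by
      rw [cls_zero, if_pos (dvd_mul_right _ _)]
    have e2 : cls q 1 (p * n) = cls q b n := by
      unfold cls
      congr 1
      apply propext
      constructor
      · intro h
        have h3 : p * n ≡ p * b [MOD q] := h.trans hpb.symm
        exact Nat.ModEq.cancel_left_of_coprime (by rw [Nat.gcd_comm]; exact hcop) h3
      · intro h
        exact (h.mul_left p).trans hpb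
    rw [e1, e2, f_mul_prime hf hp]
    ring
  have hB : ∀ m : ℕ, cls q b (p * m) * f (p * m) =
      f p * ((1 - cls p 0 m) * (cls q (b * b) m * f m)) := by
    intro m
    have e2 : cls q b (p * m) = cls q (b * b) m := by
      unfold cls
      congr 1
      apply propext
      have h4 : p * (b * b) ≡ b [MOD q] := by
        have := hpb.mul_right b
        rw [one_mul, mul_assoc] at this
        exact this
      constructor
      · intro h
        exact Nat.ModEq.cancel_left_of_coprime (by rw [Nat.gcd_comm]; exact hcop) (h.trans h4.symm)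
      · intro h
        exact (h.mul_left p).trans h4
    rw [e2, f_mul_prime hf hp]
    ring
  have hM1 : Mul Φ 1 (cls p 0) := Mul.cls hΦ p hp0 0
  have hM2 : Mul Φ 2 (fun n => 1 - cls p 0 n) := by
    have h1 := (Mul.const (Φ := Φ) 1).add ((Mul.const (Φ := Φ) (-1)).mul hM1)
    have h2 : ‖(1 : ℂ)‖ + ‖(-1 : ℂ)‖ * 1 = 2 := by
      rw [norm_neg, norm_one]
      norm_num
    rw [h2] at h1
    refine (congrArg (Mul Φ 2) ?_).mp h1
    funext n
    ring
  -- `S = A + B`
  have hsplit : S (fun n => cls q b n * f n) u R =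
      S (fun n => (1 - cls p 0 n) * (cls q b n * f n)) u R +
      ∑ n ∈ Icc 1 R, (if p ∣ n then cls q b n * f n * u n else 0) := by
    unfold S
    rw [← Finset.sum_add_distrib]
    refine Finset.sum_congr rfl fun n _ => ?_
    beta_reduce
    rw [cls_zero]
    split_ifs with h
    · ring
    · ring
  have hAeq : S (fun n => cls p 0 n * (cls q 1 n * f n)) (fun t => u (((1 / p : ℚ) : ℝ) * t)) (p * R) =
      f p * S (fun n => (1 - cls p 0 n) * (cls q b n * f n)) u R := by
    unfold S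
    have h1 : ∑ n ∈ Icc 1 (p * R), cls p 0 n * (cls q 1 n * f n) * u (((1 / p : ℚ) : ℝ) * (n : ℝ)) =
        ∑ n ∈ Icc 1 (p * R), (if p ∣ n then
          cls p 0 n * (cls q 1 n * f n) * u (((1 / p : ℚ) : ℝ) * (n : ℝ)) else 0) := by
      refine Finset.sum_congr rfl fun n _ => ?_
      split_ifs with h
      · rfl
      · rw [cls_zero, if_neg h]
        ring
    rw [h1, sum_dvd p (p * R) hp0, Nat.mul_div_cancel_left R hp0, Finset.mul_sum]
    refine Finset.sum_congr rfl fun n _ => ?_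
    beta_reduce
    rw [hA n]
    have h2 : ((1 / p : ℚ) : ℝ) * ((p * n : ℕ) : ℝ) = n := by
      push_cast
      field_simp
    rw [h2]
    ring
  have hBeq : ∑ n ∈ Icc 1 R, (if p ∣ n then cls q b n * f n * u n else 0) =
      f p * S (fun m => (1 - cls p 0 m) * (cls q (b * b) m * f m))
        (fun t => u ((p : ℚ) * t)) (R / p) := by
    rw [sum_dvd p R hp0]
    unfold S
    rw [Finset.mul_sum]
    refine Finset.sum_congr rfl fun m _ => ?_
    beta_reduce
    rw [hB m]
    have h2 : ((p : ℚ) : ℝ) * (m : ℝ) = ((p * m : ℕ) : ℝ) := by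
      push_cast
      ring
    rw [h2]
    ring
  have hu1 : (fun t => u (((1 / p : ℚ) : ℝ) * t)) ∈ Φ := hΦ.dil u hu _ (by positivity)
  have hu2 : (fun t => u (((p : ℚ) : ℝ) * t)) ∈ Φ := hΦ.dil u hu _ (by exact_mod_cast hp0)
  have n1 : ‖S (fun n => (1 - cls p 0 n) * (cls q b n * f n)) u R‖ ≤ B₁ := by
    have h3 := hM1 _ (p * R) B₁ h₁ _ hu1
    rw [hAeq, norm_mul, hfp, one_mul, one_mul] at h3
    exact h3
  have n2 : ‖∑ n ∈ Icc 1 R, (if p ∣ n then cls q b n * f n * u n else 0)‖ ≤ 2 * B₂ := by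
    have h3 := hM2 _ (R / p) B₂ h₂ _ hu2
    rw [hBeq, norm_mul, hfp, one_mul]
    exact h3
  rw [hsplit]
  exact (norm_add_le _ _).trans (add_le_add n1 n2)

/-- A large prime in a given class, with a uniform bound. -/
theorem primes (q : ℕ) (hq : 1 ≤ q) (N : ℕ) : ∃ P : ℕ, ∀ b : ℕ, Nat.Coprime b q →
    ∃ p : ℕ, p.Prime ∧ N < p ∧ p ≤ P ∧ p * b ≡ 1 [MOD q] := by
  classical
  have : NeZero q := ⟨by omega⟩
  have h1 : ∀ b : ℕ, ∃ p : ℕ, Nat.Coprime b q → p.Prime ∧ N < p ∧ p * b ≡ 1 [MOD q] := by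
    intro b
    by_cases hb : Nat.Coprime b q
    · have h2 : (b : ZMod q) * (b : ZMod q)⁻¹ = 1 := ZMod.coe_mul_inv_eq_one b hb
      have h3 : IsUnit ((b : ZMod q)⁻¹) := IsUnit.of_mul_eq_one (b : ZMod q) (by rw [mul_comm]; exact h2)
      obtain ⟨p, h4, h5, h6⟩ := Nat.forall_exists_prime_gt_and_eq_mod h3 N
      refine ⟨p, fun _ => ⟨h5, h4, ?_⟩⟩
      rw [← ZMod.natCast_eq_natCast_iff]
      push_cast
      rw [h6, mul_comm]
      exact h2
    · exact ⟨0, fun h => absurd h hb⟩
  choose g hg using h1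
  refine ⟨∑ b ∈ range q, g b, ?_⟩
  intro b hb
  have hb' : Nat.Coprime (b % q) q := by
    rw [Nat.Coprime, (Nat.mod_modEq b q).gcd_eq]
    exact hb
  obtain ⟨h7, h8, h9⟩ := hg (b % q) hb'
  refine ⟨g (b % q), h7, h8, ?_, ?_⟩
  · exact Finset.single_le_sum (f := g) (fun _ _ => Nat.zero_le _)
      (mem_range.2 (Nat.mod_lt b (by omega)))
  · exact ((Nat.mod_modEq b q).symm.mul_left (g (b % q))).trans h9

/-- From the class of `1` to all reduced classes. -/
theorem classes (hΦ : Closed Φ) {f : ℕ → ℂ} (hf : SqfMul f) {q : ℕ} (hq : 1 ≤ q) {a C : ℝ}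
    (ha : 0 < a) (hC : 0 ≤ C)
    (h₁ : ∀ R : ℕ, ∀ u ∈ Φ, ‖S (fun n => cls q 1 n * f n) u R‖ ≤ C * (R : ℝ) ^ a) :
    ∃ K : ℝ, 0 ≤ K ∧ ∀ R : ℕ, ∀ b : ℕ, Nat.Coprime b q → ∀ u ∈ Φ,
      ‖S (fun n => cls q b n * f n) u R‖ ≤ K * (R : ℝ) ^ a := by
  -- `N ^ a ≥ 4`
  obtain ⟨N, hN⟩ : ∃ N : ℕ, ∀ p : ℕ, N < p → (4 : ℝ) ≤ (p : ℝ) ^ a := by
    have h := (tendsto_rpow_atTop ha).comp tendsto_natCast_atTop_atTop
    obtain ⟨N, hN⟩ := (h.eventually_ge_atTop 4).exists_forall_of_atTop
    exact ⟨N, fun p hp => hN p hp.le⟩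
  obtain ⟨P, hP⟩ := primes q hq N
  refine ⟨2 * (C * (P : ℝ) ^ a), by positivity, ?_⟩
  intro R
  induction R using Nat.strong_induction_on with
  | _ R ih =>
    intro b hb u hu
    rcases Nat.eq_zero_or_pos R with rfl | hR
    · have : S (fun n => cls q b n * f n) u 0 = 0 := by simp [S]
      rw [this, norm_zero]
      positivity
    · obtain ⟨p, hp, hNp, hpP, hpb⟩ := hP b hb
      have hlt : R / p < R := Nat.div_lt_self hR hp.one_lt
      have h3 := step hΦ hf hq hp hpb (R := R)
        (fun v hv => h₁ (p * R) v hv) (fun v hv => ih (R / p) hlt (b * b) (Nat.Coprime.mul_left hb hb) v hv) u hu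
      refine h3.trans ?_
      have hp0 : (0 : ℝ) < p := by exact_mod_cast hp.pos
      have hR0 : (0 : ℝ) < R := by exact_mod_cast hR
      have h4 : ((p * R : ℕ) : ℝ) ^ a ≤ (P : ℝ) ^ a * (R : ℝ) ^ a := by
        push_cast
        rw [Real.mul_rpow hp0.le hR0.le]
        apply mul_le_mul_of_nonneg_right _ (by positivity)
        exact Real.rpow_le_rpow hp0.le (by exact_mod_cast hpP) ha.le
      have h5 : ((R / p : ℕ) : ℝ) ^ a ≤ (R : ℝ) ^ a / 4 := by
        calc ((R / p : ℕ) : ℝ) ^ a ≤ ((R : ℝ) / p) ^ a :=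
              Real.rpow_le_rpow (Nat.cast_nonneg _) Nat.cast_div_le ha.le
          _ = (R : ℝ) ^ a / (p : ℝ) ^ a := Real.div_rpow hR0.le hp0.le a
          _ ≤ (R : ℝ) ^ a / 4 := by
              apply div_le_div_of_nonneg_left (by positivity) (by norm_num) (hN p hNp)
      have h6 := mul_le_mul_of_nonneg_left h4 hC
      have h7 : 0 ≤ 2 * (C * (P : ℝ) ^ a) := by positivity
      have h8 := mul_le_mul_of_nonneg_left h5 h7
      calc C * ((p * R : ℕ) : ℝ) ^ a + 2 * (2 * (C * (P : ℝ) ^ a) * ((R / p : ℕ) : ℝ) ^ a)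
          ≤ C * ((P : ℝ) ^ a * (R : ℝ) ^ a) + 2 * (2 * (C * (P : ℝ) ^ a) * ((R : ℝ) ^ a / 4)) := by
            linarith
        _ = 2 * (C * (P : ℝ) ^ a) * (R : ℝ) ^ a := by ring

/-- The indicator function of the numbers prime to `D`. -/
def cop (D n : ℕ) : ℂ := if Nat.Coprime n D then 1 else 0

theorem cop_mul (l D n : ℕ) :
    cop (l * D) n = if Nat.Coprime n l ∧ Nat.Coprime n D then 1 else 0 := by
  unfold cop
  by_cases h : Nat.Coprime n (l * D)
  · rw [if_pos h, if_pos (Nat.coprime_mul_iff_right.1 h)]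
  · rw [if_neg h, if_neg fun h' => h (Nat.coprime_mul_iff_right.2 h')]

/-- Removing a coprimality condition. -/
theorem remove (hΦ : Closed Φ) {f : ℕ → ℂ} (hf : SqfMul f) {l : ℕ} (hl : l.Prime) (D : ℕ)
    {a K : ℝ} (ha : 0 < a) (hK : 0 ≤ K)
    (h : ∀ R : ℕ, ∀ u ∈ Φ, ‖S (fun n => cop (l * D) n * f n) u R‖ ≤ K * (R : ℝ) ^ a) :
    ∀ R : ℕ, ∀ u ∈ Φ, ‖S (fun n => cop D n * f n) u R‖ ≤ 2 * K * (R : ℝ) ^ a := by
  intro R u hu
  have hl0 : 0 < l := hl.pos
  have hR0 : (0 : ℝ) ≤ (R : ℝ) ^ a := by positivity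
  by_cases hD : l ∣ D
  · have e1 : (fun n => cop (l * D) n * f n) = fun n => cop D n * f n := by
      funext n
      congr 1
      unfold cop
      congr 1
      apply propext
      rw [Nat.coprime_mul_iff_right]
      constructor
      · intro h
        exact h.2
      · intro h
        exact ⟨Nat.Coprime.coprime_dvd_right hD h, h⟩
    have := h R u hu
    rw [e1] at this
    nlinarith
  · have hlD : Nat.Coprime l D := (Nat.Prime.coprime_iff_not_dvd hl).2 hD
    have hsplit : S (fun n => cop D n * f n) u R = S (fun n => cop (l * D) n * f n) u R +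
        ∑ n ∈ Icc 1 R, (if l ∣ n then cop D n * f n * u n else 0) := by
      unfold S
      rw [← Finset.sum_add_distrib]
      refine Finset.sum_congr rfl fun n _ => ?_
      beta_reduce
      have e2 : cop (l * D) n = if l ∣ n then 0 else cop D n := by
        rw [cop_mul]
        unfold cop
        by_cases h1 : l ∣ n
        · rw [if_pos h1, if_neg]
          rintro ⟨h2, _⟩
          rw [Nat.coprime_comm, Nat.Prime.coprime_iff_not_dvd hl] at h2
          exact h2 h1
        · rw [if_neg h1]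
          have h2 : Nat.Coprime n l := by
            rw [Nat.coprime_comm, Nat.Prime.coprime_iff_not_dvd hl]
            exact h1
          by_cases h3 : Nat.Coprime n D
          · rw [if_pos ⟨h2, h3⟩, if_pos h3]
          · rw [if_neg fun h => h3 h.2, if_neg h3]
      rw [e2]
      split_ifs
      · ring
      · ring
    have hsec : ∑ n ∈ Icc 1 R, (if l ∣ n then cop D n * f n * u n else 0) =
        f l * S (fun n => cop (l * D) n * f n) (fun t => u ((l : ℚ) * t)) (R / l) := by
      rw [sum_dvd l R hl0]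
      unfold S
      rw [Finset.mul_sum]
      refine Finset.sum_congr rfl fun m _ => ?_
      beta_reduce
      rw [f_mul_prime hf hl]
      have e3 : cop D (l * m) = cop D m := by
        unfold cop
        congr 1
        apply propext
        rw [Nat.coprime_mul_iff_left]
        exact ⟨fun h => h.2, fun h => ⟨hlD, h⟩⟩
      have e4 : cop (l * D) m = (1 - cls l 0 m) * cop D m := by
        rw [cop_mul, cls_zero]
        unfold cop
        by_cases h1 : l ∣ m
        · rw [if_pos h1, if_neg]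
          · ring
          · rintro ⟨h2, _⟩
            rw [Nat.coprime_comm, Nat.Prime.coprime_iff_not_dvd hl] at h2
            exact h2 h1
        · rw [if_neg h1]
          have h2 : Nat.Coprime m l := by
            rw [Nat.coprime_comm, Nat.Prime.coprime_iff_not_dvd hl]
            exact h1
          by_cases h3 : Nat.Coprime m D
          · rw [if_pos ⟨h2, h3⟩, if_pos h3]
            ring
          · rw [if_neg fun h => h3 h.2, if_neg h3]
            ring
      rw [e3, e4]
      have h2 : ((l : ℚ) : ℝ) * (m : ℝ) = ((l * m : ℕ) : ℝ) := by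
        push_cast
        ring
      rw [h2]
      ring
    have hu2 : (fun t => u (((l : ℚ) : ℝ) * t)) ∈ Φ := hΦ.dil u hu _ (by exact_mod_cast hl0)
    have n1 := h R u hu
    have n2 := h (R / l) _ hu2
    have n3 : ((R / l : ℕ) : ℝ) ^ a ≤ (R : ℝ) ^ a :=
      Real.rpow_le_rpow (Nat.cast_nonneg _) (by exact_mod_cast Nat.div_le_self R l) ha.le
    have n4 := mul_le_mul_of_nonneg_left n3 hK
    rw [hsplit, hsec]
    refine (norm_add_le _ _).trans ?_
    rw [norm_mul, hf.prime l hl, one_mul]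
    linarith

/-- Removing all the coprimality conditions. -/
theorem remove_all (hΦ : Closed Φ) {f : ℕ → ℂ} (hf : SqfMul f) {a : ℝ} (ha : 0 < a) (D : ℕ)
    (hD : 1 ≤ D) : ∀ K : ℝ, 0 ≤ K →
    (∀ R : ℕ, ∀ u ∈ Φ, ‖S (fun n => cop D n * f n) u R‖ ≤ K * (R : ℝ) ^ a) →
    ∃ K' : ℝ, ∀ R : ℕ, ∀ u ∈ Φ, ‖S f u R‖ ≤ K' * (R : ℝ) ^ a := by
  induction D using Nat.strong_induction_on with
  | _ D ih =>
    intro K hK h
    rcases Nat.lt_or_ge 1 D with h1 | h1
    · have h2 : (Nat.minFac D).Prime := Nat.minFac_prime (by omega)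
      obtain ⟨D', hD'⟩ := Nat.minFac_dvd D
      have h3 : 1 ≤ D' := by
        rcases Nat.eq_zero_or_pos D' with h | h
        · rw [h, mul_zero] at hD'
          omega
        · exact h
      have h4 : D' < D := by
        rw [hD']
        have := h2.two_le
        nlinarith
      rw [hD'] at h
      rw [← hD'] at h
      have h5 : ∀ R : ℕ, ∀ u ∈ Φ, ‖S (fun n => cop (Nat.minFac D * D') n * f n) u R‖ ≤ K * (R : ℝ) ^ a := by
        rw [← hD']
        exact h
      exact ih D' h4 h3 (2 * K) (by positivity) (remove hΦ hf h2 D' ha hK h5)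
    · have h2 : D = 1 := by omega
      subst h2
      refine ⟨K, ?_⟩
      have e1 : (fun n => cop 1 n * f n) = f := by
        funext n
        unfold cop
        rw [if_pos (Nat.coprime_one_right n), one_mul]
      rw [e1] at h
      exact h

/-- From the class of `1` modulo `q` to the full sum. -/
theorem full (hΦ : Closed Φ) {f : ℕ → ℂ} (hf : SqfMul f) {q : ℕ} (hq : 1 ≤ q) {a C : ℝ}
    (ha : 0 < a) (hC : 0 ≤ C)
    (h₁ : ∀ R : ℕ, ∀ u ∈ Φ, ‖S (fun n => cls q 1 n * f n) u R‖ ≤ C * (R : ℝ) ^ a) :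
    ∃ K : ℝ, ∀ R : ℕ, ∀ u ∈ Φ, ‖S f u R‖ ≤ K * (R : ℝ) ^ a := by
  classical
  obtain ⟨K, hK, h⟩ := classes hΦ hf hq ha hC h₁
  apply remove_all hΦ hf ha q hq (q * K) (by positivity)
  intro R u hu
  have e1 : S (fun n => cop q n * f n) u R =
      ∑ b ∈ (range q).filter (fun b => Nat.Coprime b q), S (fun n => cls q b n * f n) u R := by
    unfold S
    rw [Finset.sum_comm]
    refine Finset.sum_congr rfl fun n _ => ?_
    rw [← Finset.sum_mul, ← Finset.sum_mul]
    beta_reduce
    congr 1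
    congr 1
    unfold cop cls
    have hmem : n % q ∈ range q := mem_range.2 (Nat.mod_lt n (by omega))
    have hcop : Nat.Coprime (n % q) q ↔ Nat.Coprime n q := by
      have h := (Nat.mod_modEq n q).gcd_eq
      rw [Nat.Coprime, Nat.Coprime, h]
    by_cases hn : Nat.Coprime n q
    · rw [if_pos hn, Finset.sum_eq_single (n % q)]
      · rw [if_pos (Nat.mod_modEq n q).symm]
      · intro b hb hbn
        rw [if_neg]
        intro h
        apply hbn
        rw [mem_filter, mem_range] at hb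
        have := Nat.ModEq.symm h
        unfold Nat.ModEq at this
        rw [Nat.mod_eq_of_lt hb.1] at this
        exact this
      · intro h
        exfalso
        apply h
        rw [mem_filter]
        exact ⟨hmem, hcop.2 hn⟩
    · rw [if_neg hn]
      symm
      apply Finset.sum_eq_zero
      intro b hb
      rw [if_neg]
      intro h
      apply hn
      rw [mem_filter] at hb
      have := h.gcd_eq
      rw [Nat.Coprime, this]
      exact hb.2
  rw [e1]
  calc ‖∑ b ∈ (range q).filter (fun b => Nat.Coprime b q), S (fun n => cls q b n * f n) u R‖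
      ≤ ∑ b ∈ (range q).filter (fun b => Nat.Coprime b q), ‖S (fun n => cls q b n * f n) u R‖ :=
        norm_sum_le _ _
    _ ≤ ∑ b ∈ (range q).filter (fun b => Nat.Coprime b q), K * (R : ℝ) ^ a := by
        apply Finset.sum_le_sum
        intro b hb
        rw [mem_filter] at hb
        exact h R b hb.2 u hu
    _ ≤ ∑ b ∈ range q, K * (R : ℝ) ^ a :=
        Finset.sum_le_sum_of_subset_of_nonneg (Finset.filter_subset _ _) fun _ _ _ => by positivity
    _ = q * K * (R : ℝ) ^ a := by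
        rw [Finset.sum_const, card_range, nsmul_eq_mul]
        ring

end Pool.Agent.T2H82.PW
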