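import Mathlib

/-!
# Definitions for the theorem on the growth exponent of sums with periodic weights
-/

set_option autoImplicit false

namespace Pool.Agent.T2H82.PW

open Finset

/-- `e(t) = exp(2 π i t)`. -/
noncomputable def e (t : ℝ) : ℂ := Complex.exp (2 * Real.pi * t * Complex.I)

/-- A set of functions which is closed under multiplication by `e(r t)` for rational `r` and under dilation by
positive rational numbers. -/
structure Closed (Φ : Set (ℝ → ℂ)) : Prop where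
  mul : ∀ u ∈ Φ, ∀ r : ℚ, (fun t : ℝ => u t * e (r * t)) ∈ Φ
  dil : ∀ u ∈ Φ, ∀ r : ℚ, 0 < r → (fun t : ℝ => u (r * t)) ∈ Φ

/-- The functions `e(P(t))`, `P` a real polynomial of degree at most `k`. -/
noncomputable def Poly (k : ℕ) : Set (ℝ → ℂ) :=
  {u | ∃ P : Polynomial ℝ, P.natDegree ≤ k ∧ u = fun t => e (P.eval t)}

/-- The sum of `f(n) u(n)` over `1 ≤ n ≤ R`. -/
noncomputable def S (f : ℕ → ℂ) (u : ℝ → ℂ) (R : ℕ) : ℂ := ∑ n ∈ Icc 1 R, f n * u n

/-- The growth exponent of `sup_{u ∈ Φ} |∑_{n ≤ R} f(n) u(n)|` is at most `a`. -/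
def Bnd (Φ : Set (ℝ → ℂ)) (f : ℕ → ℂ) (a : ℝ) : Prop :=
  ∀ ε : ℝ, 0 < ε → ∃ C : ℝ, ∀ R : ℕ, 1 ≤ R → ∀ u ∈ Φ, ‖S f u R‖ ≤ C * (R : ℝ) ^ (a + ε)

/-- Multiplicative functions which are supported on the squarefree numbers and unimodular at the primes. -/
structure SqfMul (f : ℕ → ℂ) : Prop where
  mul : ∀ m n : ℕ, Nat.Coprime m n → f (m * n) = f m * f n
  sqf : ∀ n : ℕ, ¬ Squarefree n → f n = 0
  prime : ∀ p : ℕ, p.Prime → ‖f p‖ = 1

/-- The functions `w(n) = ∑ c_k e(r_k n)` with rational frequencies `r_k` and `∑ |c_k| < ∞`. -/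
def RatFourier (w : ℕ → ℂ) : Prop :=
  ∃ (c : ℕ → ℂ) (r : ℕ → ℚ), Summable (fun k => ‖c k‖) ∧ ∀ n : ℕ, w n = ∑' k, c k * e (r k * n)

end Pool.Agent.T2H82.PW
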