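import Pool.Agent.T2H82.PW.Core

set_option autoImplicit false

namespace Pool.Agent.T2H82.PW

open Finset Filter Topology

variable {Φ : Set (ℝ → ℂ)}

/-- The functions `e(x t)`, `x` real. -/
noncomputable def Lin : Set (ℝ → ℂ) := {u | ∃ x : ℝ, u = fun t => e (x * t)}

theorem closed_lin : Closed Lin := by
  refine ⟨?_, ?_⟩
  · rintro u ⟨x, rfl⟩ r
    refine ⟨x + r, ?_⟩
    funext t
    rw [add_mul, e_add]
  · rintro u ⟨x, rfl⟩ r _
    refine ⟨x * r, ?_⟩
    funext t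
    rw [mul_assoc]

theorem closed_poly (k : ℕ) (hk : 1 ≤ k) : Closed (Poly k) := by
  refine ⟨?_, ?_⟩
  · rintro u ⟨P, hP, rfl⟩ r
    refine ⟨P + Polynomial.C (r : ℝ) * Polynomial.X, ?_, ?_⟩
    · apply (Polynomial.natDegree_add_le _ _).trans
      apply max_le hP
      exact ((Polynomial.natDegree_C_mul_le _ _).trans Polynomial.natDegree_X_le).trans hk
    · funext t
      simp only [Polynomial.eval_add, Polynomial.eval_mul, Polynomial.eval_C, Polynomial.eval_X]
      rw [e_add]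
  · rintro u ⟨P, hP, rfl⟩ r _
    refine ⟨P.comp (Polynomial.C (r : ℝ) * Polynomial.X), ?_, ?_⟩
    · refine Polynomial.natDegree_comp_le.trans ?_
      calc P.natDegree * (Polynomial.C (r : ℝ) * Polynomial.X).natDegree ≤ P.natDegree * 1 :=
            Nat.mul_le_mul_left _ ((Polynomial.natDegree_C_mul_le _ _).trans Polynomial.natDegree_X_le)
        _ ≤ k := by rw [mul_one]; exact hP
    · funext t
      simp only [Polynomial.eval_comp, Polynomial.eval_mul, Polynomial.eval_C, Polynomial.eval_X]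

theorem Mul.mono {N N' : ℝ} {m : ℕ → ℂ} (hN : N ≤ N') (h : Mul Φ N m) : Mul Φ N' m := by
  intro g R B hB u hu
  exact (h g R B hB u hu).trans
    (mul_le_mul_of_nonneg_right hN ((norm_nonneg _).trans (hB u hu)))

theorem base (hΦ : Closed Φ) {f : ℕ → ℂ} (hf : SqfMul f) {n₀ q : ℕ} (hn₀ : 1 ≤ n₀)
    (hd : n₀ ∣ q) (h0 : f n₀ ≠ 0) {a C : ℝ}
    (h : ∀ R : ℕ, ∀ u ∈ Φ, ‖S (fun n => cls (n₀ * q) n₀ n * f n) u R‖ ≤ C * (R : ℝ) ^ a) :
    ∀ R : ℕ, ∀ u ∈ Φ, ‖S (fun n => cls q 1 n * f n) u R‖ ≤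
      (‖f n₀‖⁻¹ * (C * (n₀ : ℝ) ^ a)) * (R : ℝ) ^ a := by
  intro R u hu
  have hn0 : (n₀ : ℝ) ≠ 0 := by positivity
  have hu1 : (fun t => u (((1 / n₀ : ℚ) : ℝ) * t)) ∈ Φ := hΦ.dil u hu _ (by positivity)
  have key : S (fun n => cls (n₀ * q) n₀ n * f n) (fun t => u (((1 / n₀ : ℚ) : ℝ) * t)) (n₀ * R) =
      f n₀ * S (fun n => cls q 1 n * f n) u R := by
    unfold S
    have h1 : ∑ n ∈ Icc 1 (n₀ * R), cls (n₀ * q) n₀ n * f n * u (((1 / n₀ : ℚ) : ℝ) * (n : ℝ)) =
        ∑ n ∈ Icc 1 (n₀ * R), (if n₀ ∣ n then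
          cls (n₀ * q) n₀ n * f n * u (((1 / n₀ : ℚ) : ℝ) * (n : ℝ)) else 0) := by
      refine Finset.sum_congr rfl fun n _ => ?_
      split_ifs with h
      · rfl
      · have : cls (n₀ * q) n₀ n = 0 := by
          unfold cls
          rw [if_neg]
          intro h2
          apply h
          have h3 : n ≡ n₀ [MOD n₀] := h2.of_mul_right q
          exact (Nat.modEq_zero_iff_dvd).1 (h3.trans (Nat.modEq_zero_iff_dvd.2 dvd_rfl))
        rw [this]
        ring
    rw [h1, sum_dvd n₀ (n₀ * R) hn₀, Nat.mul_div_cancel_left R hn₀, Finset.mul_sum]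
    refine Finset.sum_congr rfl fun m _ => ?_
    beta_reduce
    have h2 : ((1 / n₀ : ℚ) : ℝ) * ((n₀ * m : ℕ) : ℝ) = m := by
      push_cast
      field_simp
    rw [h2]
    have h3 : cls (n₀ * q) n₀ (n₀ * m) = cls q 1 m := by
      unfold cls
      congr 1
      apply propext
      have h4 := Nat.ModEq.mul_left_cancel_iff' (c := n₀) (m := q) (a := m) (b := 1) (by omega)
      rw [mul_one] at h4
      exact h4
    rw [h3]
    by_cases h5 : m ≡ 1 [MOD q]
    · have h6 : Nat.Coprime n₀ m := by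
        have h7 : Nat.Coprime m q := by
          rw [Nat.Coprime, h5.gcd_eq]
          simp
        exact (Nat.Coprime.coprime_dvd_right hd h7).symm
      rw [hf.mul _ _ h6]
      ring
    · have : cls q 1 m = 0 := by
        unfold cls
        rw [if_neg h5]
      rw [this]
      ring
  have h1 := h (n₀ * R) _ hu1
  rw [key, norm_mul] at h1
  have h2 : 0 < ‖f n₀‖ := norm_pos_iff.2 h0
  have h3 : ((n₀ * R : ℕ) : ℝ) ^ a = (n₀ : ℝ) ^ a * (R : ℝ) ^ a := by
    push_cast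
    exact Real.mul_rpow (Nat.cast_nonneg _) (Nat.cast_nonneg _)
  rw [h3] at h1
  calc ‖S (fun n => cls q 1 n * f n) u R‖
      = ‖f n₀‖⁻¹ * (‖f n₀‖ * ‖S (fun n => cls q 1 n * f n) u R‖) := by
        field_simp
    _ ≤ ‖f n₀‖⁻¹ * (C * ((n₀ : ℝ) ^ a * (R : ℝ) ^ a)) :=
        mul_le_mul_of_nonneg_left h1 (by positivity)
    _ = _ := by ring

theorem e_periodic (r : ℚ) {q n n₀ : ℕ} (hd : r.den ∣ q) (h : n ≡ n₀ [MOD q]) :
    e ((r : ℝ) * n) = e ((r : ℝ) * n₀) := by
  have h1 : ((r.den : ℕ) : ℤ) ∣ (n : ℤ) - n₀ :=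
    (Int.natCast_dvd_natCast.2 hd).trans (Nat.modEq_iff_dvd.1 h.symm)
  obtain ⟨k, hk⟩ := h1
  have h2 : (r : ℝ) * n = (r : ℝ) * n₀ + ((r.num * k : ℤ) : ℝ) := by
    have h3 : (n : ℝ) - n₀ = (r.den : ℝ) * k := by exact_mod_cast hk
    have h4 : (r : ℝ) * (r.den : ℝ) = r.num := by
      exact_mod_cast Rat.mul_den_eq_num r
    have h5 : (r : ℝ) * ((n : ℝ) - n₀) = r.num * k := by
      rw [h3, ← mul_assoc, h4]
    push_cast
    linarith
  rw [h2, e_add, e_int, mul_one]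

/-- The local inverse of a function with absolutely convergent Fourier series. -/
theorem local_inv (hΦ : Closed Φ) {w : ℕ → ℂ} (hw : RatFourier w) {n₀ : ℕ} (h0 : w n₀ ≠ 0)
    {D : ℕ} (hD : 1 ≤ D) :
    ∃ q : ℕ, 1 ≤ q ∧ ∃ (N : ℝ) (V : ℕ → ℂ), Mul Φ N V ∧ ∀ n, V n * w n = cls (D * q) n₀ n := by
  obtain ⟨c, r, hc, hwn⟩ := hw
  have hδ : 0 < ‖w n₀‖ := norm_pos_iff.2 h0
  obtain ⟨K, hK⟩ : ∃ K : ℕ, ∑' k, ‖c (k + K)‖ < ‖w n₀‖ / 4 := by
    have h := tendsto_sum_nat_add (fun k => ‖c k‖)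
    exact ((tendsto_order.1 h).2 _ (by positivity)).exists
  set T : ℝ := ∑' k, ‖c (k + K)‖ with hT
  have hT0 : 0 ≤ T := tsum_nonneg fun _ => norm_nonneg _
  have hcK : Summable (fun k => ‖c (k + K)‖) := (summable_nat_add_iff K).2 hc
  set w' : ℕ → ℂ := fun n => ∑' k, c (k + K) * e (r (k + K) * n) with hw'
  have hMw' : Mul Φ T w' := Mul.tsum hΦ (fun k => c (k + K)) (fun k => r (k + K)) hcK
  have hs : ∀ n : ℕ, Summable (fun k => c k * e (r k * n)) := by
    intro n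
    apply Summable.of_norm
    refine hc.congr fun k => ?_
    rw [norm_mul, norm_e, mul_one]
  have hw'n : ∀ n, ‖w' n‖ ≤ T := by
    intro n
    have h1 : Summable (fun k => ‖c (k + K) * e (r (k + K) * n)‖) := by
      refine hcK.congr fun k => ?_
      rw [norm_mul, norm_e, mul_one]
    refine (norm_tsum_le_tsum_norm h1).trans (le_of_eq ?_)
    refine tsum_congr fun k => ?_
    rw [norm_mul, norm_e, mul_one]
  set wQ : ℕ → ℂ := fun n => ∑ k ∈ range K, c k * e (r k * n) with hwQ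
  have hsum : ∀ n, w n = wQ n + w' n := by
    intro n
    rw [hwn n]
    exact ((hs n).sum_add_tsum_nat_add K).symm
  set q : ℕ := ∏ k ∈ range K, (r k).den with hq
  have hq1 : 1 ≤ q := Finset.prod_pos fun k _ => (r k).den_pos
  have hper : ∀ n, n ≡ n₀ [MOD D * q] → wQ n = wQ n₀ := by
    intro n hn
    simp only [hwQ]
    refine Finset.sum_congr rfl fun k hk => ?_
    have h1 : (r k).den ∣ q := Finset.dvd_prod_of_mem _ hk
    rw [e_periodic (r k) (h1.trans (dvd_mul_left q D)) hn]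
  set c₀ : ℂ := wQ n₀ with hc₀
  have hc₀n : 3 / 4 * ‖w n₀‖ ≤ ‖c₀‖ := by
    have h1 : c₀ = w n₀ - w' n₀ := by rw [hsum n₀]; ring
    have h2 := norm_sub_norm_le (w n₀) (w' n₀)
    rw [← h1] at h2
    have h3 := hw'n n₀
    linarith
  have hc₀0 : 0 < ‖c₀‖ := by linarith [mul_pos (by norm_num : (0 : ℝ) < 3 / 4) hδ]
  have hc₀' : c₀ ≠ 0 := norm_pos_iff.1 hc₀0
  have hrat : ‖-c₀⁻¹‖ * T < 1 := by
    rw [norm_neg, norm_inv]
    rw [inv_mul_lt_iff₀ hc₀0]
    linarith
  have hrat0 : 0 ≤ ‖-c₀⁻¹‖ * T := by positivity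
  refine ⟨q, hq1, 1 * (‖c₀⁻¹‖ * (1 - ‖-c₀⁻¹‖ * T)⁻¹), fun n => cls (D * q) n₀ n * (c₀ + w' n)⁻¹, ?_, ?_⟩
  · apply Mul.lim (fun J n => cls (D * q) n₀ n * (c₀⁻¹ * ∑ j ∈ range J, (-c₀⁻¹ * w' n) ^ j))
    · intro J
      have h1 : Mul Φ (∑ j ∈ range J, (‖-c₀⁻¹‖ * T) ^ j)
          (fun n => ∑ j ∈ range J, (-c₀⁻¹ * w' n) ^ j) :=
        Mul.sum _ _ _ fun j _ => ((Mul.const (-c₀⁻¹)).mul hMw').pow j
      have h2 : ∑ j ∈ range J, (‖-c₀⁻¹‖ * T) ^ j ≤ (1 - ‖-c₀⁻¹‖ * T)⁻¹ := by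
        rw [← tsum_geometric_of_lt_one hrat0 hrat]
        exact (summable_geometric_of_lt_one hrat0 hrat).sum_le_tsum _ fun j _ => pow_nonneg hrat0 j
      have h3 := (Mul.cls hΦ (D * q) (Nat.mul_pos hD hq1) n₀).mul ((Mul.const c₀⁻¹).mul h1)
      refine h3.mono ?_
      apply mul_le_mul_of_nonneg_left _ zero_le_one
      exact mul_le_mul_of_nonneg_left h2 (norm_nonneg _)
    · intro n
      apply Tendsto.const_mul
      have h1 : ‖-c₀⁻¹ * w' n‖ < 1 := by
        rw [norm_mul]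
        exact (mul_le_mul_of_nonneg_left (hw'n n) (norm_nonneg _)).trans_lt hrat
      have h2 := (hasSum_geometric_of_norm_lt_one h1).tendsto_sum_nat.const_mul c₀⁻¹
      have h3 : c₀⁻¹ * (1 - -c₀⁻¹ * w' n)⁻¹ = (c₀ + w' n)⁻¹ := by
        rw [← mul_inv]
        congr 1
        field_simp
        ring
      rw [h3] at h2
      exact h2
  · intro n
    by_cases h : n ≡ n₀ [MOD D * q]
    · have h1 : w n = c₀ + w' n := by rw [hsum n, hper n h]
      have h2 : c₀ + w' n ≠ 0 := by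
        intro h3
        have h4 : ‖c₀‖ = ‖w' n‖ := by
          rw [eq_neg_of_add_eq_zero_left h3, norm_neg]
        have h5 := hw'n n
        linarith
      rw [h1, mul_assoc, inv_mul_cancel₀ h2, mul_one]
    · have : cls (D * q) n₀ n = 0 := by
        unfold cls
        rw [if_neg h]
      beta_reduce
      rw [this, zero_mul, zero_mul]

theorem S_zero (f : ℕ → ℂ) (u : ℝ → ℂ) : S f u 0 = 0 := by
  simp [S]

/-- The theorem. -/
theorem main (hΦ : Closed Φ) {f : ℕ → ℂ} (hf : SqfMul f) {w : ℕ → ℂ} (hw : RatFourier w)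
    (hne : ∃ n : ℕ, 1 ≤ n ∧ f n * w n ≠ 0) {a : ℝ} (ha : 0 ≤ a) :
    Bnd Φ (fun n => f n * w n) a ↔ Bnd Φ f a := by
  constructor
  · intro h ε hε
    obtain ⟨C, hC⟩ := h ε hε
    obtain ⟨n₀, hn₀, hfw⟩ := hne
    have ha' : 0 < a + ε := by linarith
    have h1 : ∀ R : ℕ, ∀ u ∈ Φ, ‖S (fun n => f n * w n) u R‖ ≤ |C| * (R : ℝ) ^ (a + ε) := by
      intro R u hu
      rcases Nat.eq_zero_or_pos R with rfl | hR
      · rw [S_zero, norm_zero]
        positivity
      · exact (hC R hR u hu).trans (mul_le_mul_of_nonneg_right (le_abs_self C) (by positivity))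
    obtain ⟨q, hq, N, V, hV, hVw⟩ := local_inv hΦ hw (right_ne_zero_of_mul hfw)
      (D := n₀ * n₀) (Nat.mul_pos hn₀ hn₀)
    have h2 : ∀ R : ℕ, ∀ u ∈ Φ, ‖S (fun n => cls (n₀ * (n₀ * q)) n₀ n * f n) u R‖ ≤
        (N * |C|) * (R : ℝ) ^ (a + ε) := by
      intro R u hu
      have h3 := hV (fun n => f n * w n) R (|C| * (R : ℝ) ^ (a + ε)) (h1 R) u hu
      have e1 : (fun n => V n * (f n * w n)) = fun n => cls (n₀ * (n₀ * q)) n₀ n * f n := by
        funext n
        rw [← mul_assoc n₀ n₀ q, ← hVw n]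
        ring
      rw [e1] at h3
      linarith
    have h4 := base hΦ hf hn₀ (dvd_mul_right n₀ q) (left_ne_zero_of_mul hfw) h2
    set C₁ : ℝ := ‖f n₀‖⁻¹ * (N * |C| * (n₀ : ℝ) ^ (a + ε)) with hC₁
    obtain ⟨K, hK⟩ := full hΦ hf (q := n₀ * q) (Nat.mul_pos hn₀ hq) ha' (abs_nonneg C₁)
      (fun R u hu => (h4 R u hu).trans (mul_le_mul_of_nonneg_right (le_abs_self C₁) (by positivity)))
    exact ⟨K, fun R _ u hu => hK R u hu⟩
  · intro h ε hε
    obtain ⟨C, hC⟩ := h ε hε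
    obtain ⟨c, r, hc, hwn⟩ := hw
    refine ⟨(∑' k, ‖c k‖) * C, fun R hR u hu => ?_⟩
    have h1 := Mul.tsum hΦ c r hc f R (C * (R : ℝ) ^ (a + ε)) (hC R hR) u hu
    have e1 : (fun n : ℕ => (∑' k, c k * e (r k * n)) * f n) = fun n : ℕ => f n * w n := by
      funext n
      rw [hwn n, mul_comm]
    rw [e1] at h1
    rw [mul_assoc]
    exact h1

theorem periodic (q : ℕ) (hq : 1 ≤ q) (w : ℕ → ℂ) (hw : ∀ n, w (n + q) = w n) : RatFourier w := by
  classical
  have hmod : ∀ n, w n = w (n % q) := by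
    intro n
    have h1 : ∀ k m : ℕ, w (m + k * q) = w m := by
      intro k
      induction k with
      | zero => intro m; simp
      | succ k ih =>
        intro m
        have : m + (k + 1) * q = (m + k * q) + q := by ring
        rw [this, hw, ih]
    have h2 := h1 (n / q) (n % q)
    rw [mul_comm (n / q) q, Nat.mod_add_div] at h2
    exact h2
  have hexp : ∀ n, w n = ∑ j ∈ range q,
      (∑ b ∈ range q, w b * (e (-((j : ℝ) / q * b)) / q)) * e (((j / q : ℚ) : ℝ) * n) := by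
    intro n
    have h1 : w n = ∑ b ∈ range q, w b * cls q b n := by
      rw [Finset.sum_eq_single (n % q)]
      · have : cls q (n % q) n = 1 := by
          unfold cls
          rw [if_pos (Nat.mod_modEq n q).symm]
        rw [this, mul_one]
        exact hmod n
      · intro b hb hbn
        have : cls q b n = 0 := by
          unfold cls
          rw [if_neg]
          intro h
          apply hbn
          have h3 : n % q = b % q := h
          rw [Nat.mod_eq_of_lt (mem_range.1 hb)] at h3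
          exact h3.symm
        rw [this, mul_zero]
      · intro h
        exact absurd (mem_range.2 (Nat.mod_lt n (by omega))) h
    rw [h1]
    simp only [cls_eq q hq, Finset.mul_sum, Finset.sum_mul]
    rw [Finset.sum_comm]
    refine Finset.sum_congr rfl fun j _ => Finset.sum_congr rfl fun b _ => ?_
    ring
  refine ⟨fun j => if j ∈ range q then ∑ b ∈ range q, w b * (e (-((j : ℝ) / q * b)) / q) else 0,
    fun j => (j / q : ℚ), ?_, ?_⟩
  · apply summable_of_ne_finset_zero (s := range q)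
    intro j hj
    beta_reduce
    rw [if_neg hj, norm_zero]
  · intro n
    rw [tsum_eq_sum (s := range q)]
    · rw [hexp n]
      refine Finset.sum_congr rfl fun j hj => ?_
      beta_reduce
      rw [if_pos hj]
    · intro j hj
      beta_reduce
      rw [if_neg hj, zero_mul]

theorem moebius : SqfMul (fun n => ((ArithmeticFunction.moebius n : ℤ) : ℂ)) := by
  refine ⟨?_, ?_, ?_⟩
  · intro m n h
    rw [ArithmeticFunction.isMultiplicative_moebius.map_mul_of_coprime h]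
    push_cast
    rfl
  · intro n h
    rw [ArithmeticFunction.moebius_eq_zero_of_not_squarefree h]
    simp
  · intro p hp
    rw [ArithmeticFunction.moebius_apply_prime hp]
    simp

end Pool.Agent.T2H82.PW
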