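import Pool.Agent.T2H82.PW.Defs

set_option autoImplicit false

namespace Pool.Agent.T2H82.PW

open Finset Filter Topology

theorem e_add (s t : ℝ) : e (s + t) = e s * e t := by
  unfold e
  rw [← Complex.exp_add]
  congr 1
  push_cast
  ring

theorem e_zero : e 0 = 1 := by
  unfold e
  simp

theorem norm_e (t : ℝ) : ‖e t‖ = 1 := by
  unfold e
  have : (2 * Real.pi * t * Complex.I : ℂ) = ((2 * Real.pi * t : ℝ) : ℂ) * Complex.I := by
    push_cast
    ring
  rw [this, Complex.norm_exp_ofReal_mul_I]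

theorem e_int (k : ℤ) : e k = 1 := by
  unfold e
  rw [Complex.exp_eq_one_iff]
  exact ⟨k, by push_cast; ring⟩

theorem e_eq_one {t : ℝ} (h : e t = 1) : ∃ k : ℤ, t = k := by
  unfold e at h
  rw [Complex.exp_eq_one_iff] at h
  obtain ⟨k, hk⟩ := h
  refine ⟨k, ?_⟩
  have h1 : (2 * Real.pi * Complex.I : ℂ) ≠ 0 := Complex.two_pi_I_ne_zero
  have h2 : (2 * Real.pi * Complex.I : ℂ) * (t : ℂ) = (2 * Real.pi * Complex.I : ℂ) * (k : ℂ) := by
    linear_combination hk
  have h3 := mul_left_cancel₀ h1 h2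
  exact_mod_cast h3

theorem e_natmul (j : ℕ) (t : ℝ) : e (j * t) = e t ^ j := by
  induction j with
  | zero => simp [e_zero]
  | succ j ih =>
    have : ((j + 1 : ℕ) : ℝ) * t = j * t + t := by push_cast; ring
    rw [this, e_add, ih, pow_succ]

/-- `m` is a multiplier of norm at most `N` for the sums with the functions of `Φ`. -/
def Mul (Φ : Set (ℝ → ℂ)) (N : ℝ) (m : ℕ → ℂ) : Prop :=
  ∀ (g : ℕ → ℂ) (R : ℕ) (B : ℝ), (∀ u ∈ Φ, ‖S g u R‖ ≤ B) →
    ∀ u ∈ Φ, ‖S (fun n => m n * g n) u R‖ ≤ N * B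

variable {Φ : Set (ℝ → ℂ)}

theorem Mul.const (c : ℂ) : Mul Φ ‖c‖ (fun _ => c) := by
  intro g R B h u hu
  have : S (fun n => c * g n) u R = c * S g u R := by
    unfold S
    rw [Finset.mul_sum]
    exact Finset.sum_congr rfl fun n _ => by ring
  rw [this, norm_mul]
  exact mul_le_mul_of_nonneg_left (h u hu) (norm_nonneg _)

theorem Mul.exp (hΦ : Closed Φ) (r : ℚ) : Mul Φ 1 (fun n => e (r * n)) := by
  intro g R B h u hu
  have : S (fun n => e (r * n) * g n) u R = S g (fun t => u t * e (r * t)) R := by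
    unfold S
    exact Finset.sum_congr rfl fun n _ => by ring
  rw [this, one_mul]
  exact h _ (hΦ.mul u hu r)

theorem Mul.add {N₁ N₂ : ℝ} {m₁ m₂ : ℕ → ℂ} (h₁ : Mul Φ N₁ m₁) (h₂ : Mul Φ N₂ m₂) :
    Mul Φ (N₁ + N₂) (fun n => m₁ n + m₂ n) := by
  intro g R B h u hu
  have : S (fun n => (m₁ n + m₂ n) * g n) u R =
      S (fun n => m₁ n * g n) u R + S (fun n => m₂ n * g n) u R := by
    unfold S
    rw [← Finset.sum_add_distrib]
    exact Finset.sum_congr rfl fun n _ => by ring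
  rw [this, add_mul]
  exact (norm_add_le _ _).trans (add_le_add (h₁ g R B h u hu) (h₂ g R B h u hu))

theorem Mul.mul {N₁ N₂ : ℝ} {m₁ m₂ : ℕ → ℂ} (h₁ : Mul Φ N₁ m₁) (h₂ : Mul Φ N₂ m₂) :
    Mul Φ (N₁ * N₂) (fun n => m₁ n * m₂ n) := by
  intro g R B h u hu
  have h3 := h₁ (fun n => m₂ n * g n) R (N₂ * B) (fun v hv => h₂ g R B h v hv) u hu
  have e1 : (fun n => m₁ n * m₂ n * g n) = fun n => m₁ n * (m₂ n * g n) := by
    funext n
    ring
  rw [e1, mul_assoc]
  exact h3

theorem Mul.sum {ι : Type} (s : Finset ι) (N : ι → ℝ) (m : ι → ℕ → ℂ)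
    (h : ∀ i ∈ s, Mul Φ (N i) (m i)) : Mul Φ (∑ i ∈ s, N i) (fun n => ∑ i ∈ s, m i n) := by
  classical
  induction s using Finset.induction_on with
  | empty =>
    intro g R B _ u _
    simp [S]
  | insert a s ha ih =>
    have h1 := (h a (Finset.mem_insert_self a s)).add
      (ih fun i hi => h i (Finset.mem_insert_of_mem hi))
    rw [Finset.sum_insert ha]
    refine (congrArg (Mul Φ _) ?_).mp h1
    funext n
    rw [Finset.sum_insert ha]

theorem Mul.pow {N : ℝ} {m : ℕ → ℂ} (h : Mul Φ N m) (j : ℕ) : Mul Φ (N ^ j) (fun n => m n ^ j) := by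
  induction j with
  | zero =>
    have := Mul.const (Φ := Φ) 1
    rw [norm_one] at this
    simpa using this
  | succ j ih =>
    have := ih.mul h
    simpa [pow_succ] using this

/-- Pointwise limits. -/
theorem Mul.lim {N : ℝ} {m : ℕ → ℂ} (M : ℕ → ℕ → ℂ) (h : ∀ k, Mul Φ N (M k))
    (hl : ∀ n, Tendsto (fun k => M k n) atTop (𝓝 (m n))) : Mul Φ N m := by
  intro g R B hB u hu
  have h1 : Tendsto (fun k => S (fun n => M k n * g n) u R) atTop
      (𝓝 (S (fun n => m n * g n) u R)) := by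
    unfold S
    apply tendsto_finsetSum
    intro n _
    exact ((hl n).mul_const _).mul_const _
  exact le_of_tendsto h1.norm (Eventually.of_forall fun k => h k g R B hB u hu)

/-- The indicator function of the class of `b` modulo `q`. -/
def cls (q b n : ℕ) : ℂ := if n ≡ b [MOD q] then 1 else 0

theorem cls_eq (q : ℕ) (hq : 1 ≤ q) (b n : ℕ) :
    cls q b n = ∑ j ∈ range q, (e (-((j : ℝ) / q * b)) / q) * e (((j / q : ℚ) : ℝ) * n) := by
  have hq0 : (q : ℝ) ≠ 0 := by positivity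
  have hq0' : (q : ℂ) ≠ 0 := by exact_mod_cast (by omega : q ≠ 0)
  have h1 : ∀ j ∈ range q, (e (-((j : ℝ) / q * b)) / q) * e (((j / q : ℚ) : ℝ) * n) =
      (1 / (q : ℂ)) * e (((n : ℝ) - b) / q) ^ j := by
    intro j _
    rw [← e_natmul]
    have : (j : ℝ) * (((n : ℝ) - b) / q) = -((j : ℝ) / q * b) + ((j / q : ℚ) : ℝ) * n := by
      push_cast
      field_simp
      ring
    rw [this, e_add]
    ring
  rw [Finset.sum_congr rfl h1, ← Finset.mul_sum]
  unfold cls
  split_ifs with h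
  · have h2 : e (((n : ℝ) - b) / q) = 1 := by
      have h3 : (q : ℤ) ∣ (n : ℤ) - b := (Nat.modEq_iff_dvd.1 h.symm)
      obtain ⟨k, hk⟩ := h3
      have h4 : ((n : ℝ) - b) / q = (k : ℤ) := by
        have : (n : ℝ) - b = q * k := by exact_mod_cast hk
        rw [this]
        field_simp
      rw [h4, e_int]
    simp only [h2, one_pow, sum_const, card_range, nsmul_eq_mul, mul_one]
    field_simp
  · have h2 : e (((n : ℝ) - b) / q) ≠ 1 := by
      intro h3
      obtain ⟨k, hk⟩ := e_eq_one h3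
      apply h
      apply Nat.ModEq.symm
      rw [Nat.modEq_iff_dvd]
      refine ⟨k, ?_⟩
      have : (n : ℝ) - b = q * k := by
        field_simp at hk
        linarith
      exact_mod_cast this
    have h3 : e (((n : ℝ) - b) / q) ^ q = 1 := by
      rw [← e_natmul]
      have : (q : ℝ) * (((n : ℝ) - b) / q) = (((n : ℤ) - b : ℤ) : ℝ) := by
        push_cast
        field_simp
      rw [this, e_int]
    rw [geom_sum_eq h2, h3]
    simp

theorem Mul.cls (hΦ : Closed Φ) (q : ℕ) (hq : 1 ≤ q) (b : ℕ) : Mul Φ 1 (PW.cls q b) := by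
  have h1 : Mul Φ (∑ j ∈ range q, ‖e (-((j : ℝ) / q * b)) / q‖ * 1)
      (fun n => ∑ j ∈ range q, (e (-((j : ℝ) / q * b)) / q) * e (((j / q : ℚ) : ℝ) * n)) :=
    Mul.sum _ _ _ fun j _ => (Mul.const _).mul (Mul.exp hΦ _)
  have h2 : ∑ j ∈ range q, ‖e (-((j : ℝ) / q * b)) / q‖ * 1 = 1 := by
    have hq0 : (q : ℝ) ≠ 0 := by positivity
    simp only [norm_div, norm_e, mul_one, sum_const, card_range, nsmul_eq_mul]
    rw [Complex.norm_natCast]
    field_simp
  rw [h2] at h1
  refine (congrArg (Mul Φ 1) ?_).mp h1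
  funext n
  exact (cls_eq q hq b n).symm

/-- Functions with absolutely convergent Fourier series with rational frequencies. -/
theorem Mul.tsum (hΦ : Closed Φ) (c : ℕ → ℂ) (r : ℕ → ℚ) (hc : Summable (fun k => ‖c k‖)) :
    Mul Φ (∑' k, ‖c k‖) (fun n => ∑' k, c k * e (r k * n)) := by
  have hs : ∀ n : ℕ, Summable (fun k => c k * e (r k * n)) := by
    intro n
    apply Summable.of_norm
    refine hc.congr fun k => ?_
    rw [norm_mul, norm_e, mul_one]
  have h1 : ∀ K : ℕ, Mul Φ (∑' k, ‖c k‖) (fun n => ∑ k ∈ range K, c k * e (r k * n)) := by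
    intro K g R B hB u hu
    have h2 := Mul.sum (range K) (fun k => ‖c k‖ * 1) (fun k n => c k * e (r k * n))
      (fun k _ => (Mul.const (c k)).mul (Mul.exp hΦ (r k))) g R B hB u hu
    refine h2.trans ?_
    apply mul_le_mul_of_nonneg_right _ ((norm_nonneg _).trans (hB u hu))
    simp only [mul_one]
    exact hc.sum_le_tsum _ fun k _ => norm_nonneg _
  exact Mul.lim _ h1 fun n => (hs n).hasSum.tendsto_sum_nat

end Pool.Agent.T2H82.PW
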